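import Pool.Agent.V11316.I3

set_option autoImplicit false

/-!
# `S_{rn-1}(q) ≡ S_{rn+(n-1)/2}(q) ≡ 0 (mod Φ_n(q)²)` for `n ≡ 3 (mod 4)` and all `r ≥ 1`
-/

namespace Pool.Agent.Results.MP_846daf_nt.AllTruncations

open Polynomial Finset

noncomputable section

/-- the indeterminate `q` -/
def q : RatFunc ℚ := RatFunc.X

/-- the `q`-shifted factorial `(a;p)_k = ∏_{i<k} (1 - a p^i)` -/
def poch (a p : RatFunc ℚ) (k : ℕ) : RatFunc ℚ := ∏ i ∈ range k, (1 - a * p ^ i)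

/-- `t_k(q) = q^k (1+q^{4k+1}) (q^2;q^4)_k^3 / ((1+q) (q^4;q^4)_k^3)` -/
def t (k : ℕ) : RatFunc ℚ :=
  q ^ k * ((1 + q ^ (4 * k + 1)) * (poch (q ^ 2) (q ^ 4) k) ^ 3 / ((1 + q) * (poch (q ^ 4) (q ^ 4) k) ^ 3))

/-- `S_N(q) = ∑_{k=0}^N t_k(q)` -/
def S (N : ℕ) : RatFunc ℚ := ∑ k ∈ range (N + 1), t k

/-- `F ≡ 0 (mod P)`: in lowest terms `F = A/B` with `P ∣ A` and `B` coprime to `P` -/
def CongZero (P : ℚ[X]) (F : RatFunc ℚ) : Prop :=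
  P ∣ F.num ∧ IsCoprime F.denom P

theorem congZero_of {n : ℕ} (hn : 0 < n) {F : RatFunc ℚ} (h : V11307.Q.I n 2 F) :
    CongZero (cyclotomic n ℚ ^ 2) F := by
  have h3 : cyclotomic n ℚ ^ 2 ∣ F.num := V11307.Q.I.num_dvd hn h
  exact ⟨h3, ((RatFunc.isCoprime_num_denom _).of_isCoprime_of_dvd_left h3).symm⟩

theorem t_eq (k : ℕ) : t k = V11316.M846.tt k := by
  rw [t, V11316.M846.tt, poch, poch, ← mul_div_assoc]
  rfl

/-- For every `n ≡ 3 (mod 4)` and every `r ≥ 1`, both `S_{rn-1}(q)` and `S_{rn+(n-1)/2}(q)` are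
`≡ 0` modulo `Φ_n(q)²`. -/
theorem result (n : ℕ) (hn : n ≡ 3 [MOD 4]) (r : ℕ) (hr : 1 ≤ r) :
    CongZero (cyclotomic n ℚ ^ 2) (S (r * n - 1)) ∧
    CongZero (cyclotomic n ℚ ^ 2) (S (r * n + (n - 1) / 2)) := by
  have h5 : n % 4 = 3 := hn
  obtain ⟨m, hm⟩ : ∃ m, n = 4 * m + 3 := ⟨n / 4, by omega⟩
  have hh : n = 2 * (2 * m + 1) + 1 := by omega
  have hpos : 0 < r * n := Nat.mul_pos (by omega) (by omega)
  have hS : ∀ N, S N = ∑ k ∈ range (N + 1), V11316.M846.tt k := fun N =>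
    sum_congr rfl fun k _ => t_eq k
  refine ⟨congZero_of (by omega) ?_, congZero_of (by omega) ?_⟩
  · rw [hS, show r * n - 1 + 1 = r * n by omega]
    exact V11316.M846.sum_full hm hh r
  · rw [hS, show r * n + (n - 1) / 2 + 1 = r * n + ((2 * m + 1) + 1) by omega]
    exact V11316.M846.sum_half hm hh r

end

end Pool.Agent.Results.MP_846daf_nt.AllTruncations
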